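import Pool.Agent.Helper69.UG.Defs
import Pool.Agent.Helper54.LG.Pt

/-!
# UG: pointwise bounds for the main term

`MM X t = log |t| / X + O(1/X)` for `e^(X/4) ≤ |t|` (first part as in LG/Mt), and
`|MM X t| ≤ C e^(2X) (1 + log (2 + |t|))` for all `t`; measurability.
-/

set_option autoImplicit false
open MeasureTheory Set Filter Topology
open Pool.Agent.Helper57.Zeta Pool.Agent.Helper57.LH Pool.Agent.Helper57.ED Pool.Agent.Helper54.LG

namespace Pool.Agent.Helper57.UG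

open Complex in
private lemma xJJ57 {x : ℝ} (hx : 0 < x) {z : ℂ} (hz : z ≠ 0) :
    x * (JJ x z).re = (-((x : ℂ) / z) + (cexp (z * x) - 1) / z ^ 2).re := by
  rw [← Complex.re_ofReal_mul, JJ_eq hx hz]
  have hx' : (x : ℂ) ≠ 0 := by exact_mod_cast hx.ne'
  congr 1
  field_simp

open Complex in
private lemma xJJ_cont57 {X : ℝ} {z : ℂ} (hz : z ≠ 0) : ContinuousOn (fun x : ℝ => x * (JJ x z).re) (Ioc 0 X) := by
  have h : Continuous (fun x : ℝ => (-((x : ℂ) / z) + (cexp (z * x) - 1) / z ^ 2).re) := by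
    apply Complex.continuous_re.comp
    apply Continuous.add
    · apply Continuous.neg
      exact Complex.continuous_ofReal.div_const z
    · apply Continuous.div_const
      fun_prop
  exact h.continuousOn.congr fun x hx => xJJ57 hx.1 hz

/-- difference of the two main sums, termwise, all positive lengths -/
private lemma term_diff57 {X t : ℝ} (hX0 : 0 < X) (ht : 1 ≤ t) (n : ℕ) :
    |X * ((1 / ((n:ℝ) + 1) - 2 * (JJ X ((3 / 2 - 2 * ((n:ℝ) + 1) : ℝ) + t * Complex.I)).re) - Dn n t)| ≤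
      (3 * X + 4) * (2 * (1 / ((n:ℝ) + 1) ^ 2)) := by
  have hn0 : (0:ℝ) ≤ n := Nat.cast_nonneg n
  set b : ℝ := 2 * ((n:ℝ) + 1) - 3 / 2 with hb
  have hb0 : 0 < b := by rw [hb]; linarith only [hn0]
  have hz : (((3 / 2 - 2 * ((n:ℝ) + 1) : ℝ) : ℂ) + t * Complex.I) = ((-b : ℝ) : ℂ) + t * Complex.I := by
    congr 2; rw [hb]; ring
  rw [hz]
  have hz0 : ((-b : ℝ) : ℂ) + t * Complex.I ≠ 0 := z_ne (by linarith only [hb0]) t
  rw [JJ_eq hX0 hz0, Complex.add_re, Complex.neg_re, one_div, one_div, Complex.inv_re, normSq_z]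
  have e1 : (((-b : ℝ) : ℂ) + t * Complex.I).re = -b := by simp
  rw [e1]
  set q := ((Complex.exp ((((-b : ℝ) : ℂ) + t * Complex.I) * X) - 1) / (X * (((-b : ℝ) : ℂ) + t * Complex.I) ^ 2)).re with hq
  have hq1 : |q| ≤ 2 / (b ^ 2 + t ^ 2) / X := by
    rw [hq]
    refine (Complex.abs_re_le_norm _).trans ?_
    rw [norm_div, norm_mul, norm_pow, Complex.norm_real, Real.norm_of_nonneg hX0.le, ← Complex.normSq_eq_norm_sq, normSq_z, neg_sq]
    have h1 : ‖Complex.exp ((((-b : ℝ) : ℂ) + t * Complex.I) * X) - 1‖ ≤ 2 := by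
      refine (norm_sub_le _ _).trans ?_
      rw [Complex.norm_exp, norm_one]
      have : ((((-b : ℝ) : ℂ) + t * Complex.I) * X).re ≤ 0 := by
        simp
        positivity
      have := Real.exp_le_one_iff.mpr this
      linarith only [this]
    calc ‖Complex.exp ((((-b : ℝ) : ℂ) + t * Complex.I) * X) - 1‖ / (X * (b ^ 2 + t ^ 2)) ≤ 2 / (X * (b ^ 2 + t ^ 2)) := by gcongr
      _ = _ := by rw [div_div, mul_comm X]
  unfold Dn
  have hab : 2 * ((n:ℝ) + 1) = b + 3 / 2 := by rw [hb]; ring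
  rw [hab]
  have e2 : (((n:ℝ) + 1)⁻¹ - 2 * (-(-b / ((-b) ^ 2 + t ^ 2)) + q)) - (1 / ((n:ℝ) + 1) - 2 * ((b + 3 / 2) / ((b + 3 / 2) ^ 2 + t ^ 2))) =
      -(3 * (b * (b + 3 / 2) - t ^ 2) / ((b ^ 2 + t ^ 2) * ((b + 3 / 2) ^ 2 + t ^ 2))) - 2 * q := by
    field_simp
    ring
  rw [e2]
  have h3 : |3 * (b * (b + 3 / 2) - t ^ 2) / ((b ^ 2 + t ^ 2) * ((b + 3 / 2) ^ 2 + t ^ 2))| ≤ 3 / (b ^ 2 + t ^ 2) := by
    rw [abs_div, abs_of_pos (by positivity : 0 < (b ^ 2 + t ^ 2) * ((b + 3 / 2) ^ 2 + t ^ 2)), div_le_div_iff₀ (by positivity) (by positivity), abs_mul,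
      abs_of_pos (by norm_num : (0:ℝ) < 3)]
    have h4 : |b * (b + 3 / 2) - t ^ 2| ≤ (b + 3 / 2) ^ 2 + t ^ 2 := by
      rw [abs_le]
      constructor <;> nlinarith only [hb0, sq_nonneg t, mul_pos hb0 hb0]
    calc 3 * |b * (b + 3 / 2) - t ^ 2| * (b ^ 2 + t ^ 2) ≤ 3 * ((b + 3 / 2) ^ 2 + t ^ 2) * (b ^ 2 + t ^ 2) := by gcongr
      _ = _ := by ring
  have h5 : 1 / (b ^ 2 + t ^ 2) ≤ 2 * (1 / ((n:ℝ) + 1) ^ 2) := by
    rw [mul_one_div, div_le_div_iff₀ (by positivity) (by positivity)]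
    rw [hb]
    nlinarith
  have h6 : |-(3 * (b * (b + 3 / 2) - t ^ 2) / ((b ^ 2 + t ^ 2) * ((b + 3 / 2) ^ 2 + t ^ 2))) - 2 * q| ≤
      3 / (b ^ 2 + t ^ 2) + 2 * (2 / (b ^ 2 + t ^ 2) / X) := by
    refine (abs_sub _ _).trans ?_
    rw [abs_neg, abs_mul, abs_of_pos (by norm_num : (0:ℝ) < 2)]
    gcongr
  rw [abs_mul, abs_of_pos hX0]
  calc X * |-(3 * (b * (b + 3 / 2) - t ^ 2) / ((b ^ 2 + t ^ 2) * ((b + 3 / 2) ^ 2 + t ^ 2))) - 2 * q|
      ≤ X * (3 / (b ^ 2 + t ^ 2) + 2 * (2 / (b ^ 2 + t ^ 2) / X)) := by gcongr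
    _ = (3 * X + 4) * (1 / (b ^ 2 + t ^ 2)) := by
        field_simp
        ring
    _ ≤ _ := by gcongr

private lemma sum_sq57 : Summable (fun n : ℕ => 2 * (1 / ((n:ℝ) + 1) ^ 2)) := by
  have h := sum_inv_sq.2.mul_left (1 / 7)
  refine h.congr fun n => ?_
  ring

/-- the tail sum -/
private noncomputable def RRx57 (t x : ℝ) : ℝ :=
  ∑' n : ℕ, x * ((1 / ((n:ℝ) + 1) - 2 * (JJ x ((3 / 2 - 2 * ((n:ℝ) + 1) : ℝ) + t * Complex.I)).re) - Dn n t)

private lemma RR_bound57 {x t : ℝ} (hx : 0 < x) (ht : 1 ≤ t) : |RRx57 t x| ≤ (3 * x + 4) * 4 := by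
  unfold RRx57
  have h := tsum_of_norm_bounded ((sum_sq57.mul_left (3 * x + 4)).hasSum) (fun n => by
    rw [Real.norm_eq_abs]; exact term_diff57 hx ht n)
  have h0 : ∑' n : ℕ, (3 * x + 4) * (2 * (1 / ((n:ℝ) + 1) ^ 2)) = (3 * x + 4) * ∑' n : ℕ, 2 * (1 / ((n:ℝ) + 1) ^ 2) :=
    tsum_mul_left
  rw [Real.norm_eq_abs, h0] at h
  refine h.trans ?_
  have h2 : ∑' n : ℕ, 2 * (1 / ((n:ℝ) + 1) ^ 2) = 1 / 7 * ∑' n : ℕ, 14 * (1 / ((n:ℝ) + 1) ^ 2) := by
    rw [← tsum_mul_left]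
    congr 1
    funext n
    ring
  have h3 := sum_inv_sq.1
  have h4 : ∑' n : ℕ, 2 * (1 / ((n:ℝ) + 1) ^ 2) ≤ 4 := by rw [h2]; linarith only [h3]
  gcongr

private lemma RR_cont57 {X t : ℝ} (ht : 1 ≤ t) : ContinuousOn (RRx57 t) (Ioc 0 X) := by
  unfold RRx57
  apply continuousOn_tsum (u := fun n : ℕ => (3 * X + 4) * (2 * (1 / ((n:ℝ) + 1) ^ 2)))
  · intro n
    have hn0 : (0:ℝ) ≤ n := Nat.cast_nonneg n
    have hz : (((3 / 2 - 2 * ((n:ℝ) + 1) : ℝ) : ℂ) + t * Complex.I) ≠ 0 := z_ne (by linarith only [hn0]) t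
    have h := xJJ_cont57 (X := X) hz
    have e : (fun x : ℝ => x * ((1 / ((n:ℝ) + 1) - 2 * (JJ x ((3 / 2 - 2 * ((n:ℝ) + 1) : ℝ) + t * Complex.I)).re) - Dn n t)) =
        fun x : ℝ => x * (1 / ((n:ℝ) + 1) - Dn n t) - 2 * (x * (JJ x ((3 / 2 - 2 * ((n:ℝ) + 1) : ℝ) + t * Complex.I)).re) := by
      funext x; ring
    rw [e]
    exact (continuousOn_id.mul continuousOn_const).sub (continuousOn_const.mul h)
  · exact sum_sq57.mul_left _
  · intro n x hx
    rw [Real.norm_eq_abs]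
    refine (term_diff57 hx.1 ht n).trans ?_
    have := hx.2
    gcongr

/-- the main term through the digamma sum -/
private lemma MT_eq57 {x t : ℝ} (hx : 0 < x) (ht : 1 ≤ t) : x * MT x t =
    2 * (x * (JJ x ((3 / 2 - 2 : ℝ) + t * Complex.I)).re) + 2 * (x * (JJ x ((3 / 2 - 1 : ℝ) + t * Complex.I)).re) -
      x * (Real.log Real.pi + Real.eulerMascheroniConstant) + (RRx57 t x + x * ∑' n : ℕ, Dn n t) := by
  have hs : Summable (fun n : ℕ => x * ((1 / ((n:ℝ) + 1) - 2 * (JJ x ((3 / 2 - 2 * ((n:ℝ) + 1) : ℝ) + t * Complex.I)).re) - Dn n t)) :=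
    Summable.of_norm_bounded (sum_sq57.mul_left (3 * x + 4)) (fun n => by
      rw [Real.norm_eq_abs]; exact term_diff57 hx ht n)
  have hD := (Dn_summable t).mul_left x
  have h1 : RRx57 t x + x * ∑' n : ℕ, Dn n t =
      x * ∑' n : ℕ, (1 / ((n:ℝ) + 1) - 2 * (JJ x ((3 / 2 - 2 * ((n:ℝ) + 1) : ℝ) + t * Complex.I)).re) := by
    unfold RRx57
    rw [← tsum_mul_left, ← tsum_mul_left, ← hs.tsum_add hD]
    congr 1
    funext n
    ring
  rw [h1]
  unfold MT
  ring

private noncomputable def C57 : ℝ := CM + 100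

private lemma C_pos57 : 0 < C57 := by
  unfold C57 CM
  positivity

private lemma MT_diff57 {x t : ℝ} (hx : 0 < x) (ht : 1 ≤ t) (hxt : Real.exp (x / 2) ≤ t ^ 2) :
    |x * MT x t - x * Real.log t| ≤ C57 * (1 + x) := by
  rcases le_total 1 x with h | h
  · have h1 := MT_bound h ht hxt
    rw [← mul_sub, abs_mul, abs_of_pos hx]
    have h2 : CM ≤ C57 := by unfold C57; linarith
    have h3 := C_pos57
    calc x * |MT x t - Real.log t| ≤ x * C57 := by gcongr; linarith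
      _ ≤ _ := by nlinarith only [h3, hx]
  · have hJ1 : |x * (JJ x ((3 / 2 - 2 : ℝ) + t * Complex.I)).re| ≤ 4 := by
      have h' := JJ_re_le hx (z_ne (a := 3/2 - 2) (by norm_num) t)
      rw [normSq_z] at h'
      have e1 : (((3 / 2 - 2 : ℝ) : ℂ) + t * Complex.I).re = -(1/2) := by simp; norm_num
      rw [e1, abs_neg, abs_of_pos (by norm_num : (0:ℝ) < 1/2)] at h'
      rw [abs_mul, abs_of_pos hx]
      have h2 : Real.exp (-(1/2) * x) ≤ 1 := Real.exp_le_one_iff.mpr (by linarith only [hx])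
      calc x * |(JJ x ((3 / 2 - 2 : ℝ) + t * Complex.I)).re|
          ≤ x * ((1 / 2 + (Real.exp (-(1/2) * x) + 1) / x) / ((3 / 2 - 2) ^ 2 + t ^ 2)) := by gcongr
        _ = (x / 2 + (Real.exp (-(1/2) * x) + 1)) / ((3 / 2 - 2) ^ 2 + t ^ 2) := by
            field_simp
        _ ≤ 4 := by
            rw [div_le_iff₀ (by positivity)]
            nlinarith only [ht, h2, h]
    have hJ2 : |x * (JJ x ((3 / 2 - 1 : ℝ) + t * Complex.I)).re| ≤ 4 := by
      have h' := JJ_re_le hx (z_ne (a := 3/2 - 1) (by norm_num) t)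
      rw [normSq_z] at h'
      have e1 : (((3 / 2 - 1 : ℝ) : ℂ) + t * Complex.I).re = 1/2 := by simp; norm_num
      rw [e1, abs_of_pos (by norm_num : (0:ℝ) < 1/2)] at h'
      rw [abs_mul, abs_of_pos hx]
      have h2 : Real.exp (1/2 * x) ≤ t ^ 2 := by rw [show 1/2 * x = x / 2 by ring]; exact hxt
      calc x * |(JJ x ((3 / 2 - 1 : ℝ) + t * Complex.I)).re|
          ≤ x * ((1 / 2 + (Real.exp (1/2 * x) + 1) / x) / ((3 / 2 - 1) ^ 2 + t ^ 2)) := by gcongr
        _ = (x / 2 + (Real.exp (1/2 * x) + 1)) / ((3 / 2 - 1) ^ 2 + t ^ 2) := by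
            field_simp
        _ ≤ 4 := by
            rw [div_le_iff₀ (by positivity)]
            nlinarith only [ht, h2, h]
    have h1 := RR_bound57 hx ht
    have h2 := Dn_sum ht
    rw [MT_eq57 hx ht]
    set A1 := x * (JJ x ((3 / 2 - 2 : ℝ) + t * Complex.I)).re
    set A2 := x * (JJ x ((3 / 2 - 1 : ℝ) + t * Complex.I)).re
    set A3 := Real.log Real.pi + Real.eulerMascheroniConstant with hA3
    have e : 2 * A1 + 2 * A2 - x * A3 + (RRx57 t x + x * ∑' n : ℕ, Dn n t) - x * Real.log t =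
        2 * A1 + 2 * A2 - x * A3 + RRx57 t x + x * (∑' n : ℕ, Dn n t - Real.log t) := by ring
    rw [e]
    have g1 : |x * A3| ≤ |A3| * (1 + x) := by
      rw [abs_mul, abs_of_pos hx]
      nlinarith only [hx, abs_nonneg A3]
    have g2 : |x * (∑' n : ℕ, Dn n t - Real.log t)| ≤ x * 20 := by
      rw [abs_mul, abs_of_pos hx]
      gcongr
    have hC : C57 * (1 + x) = 160 * (1 + x) + |A3| * (1 + x) := by
      unfold C57 CM
      rw [hA3]; ring
    rw [hC]
    have k1 := abs_le.mp hJ1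
    have k2 := abs_le.mp hJ2
    have k3 := abs_le.mp g1
    have k4 := abs_le.mp g2
    have k5 := abs_le.mp h1
    rw [abs_le]
    constructor <;> linarith [k1.1, k1.2, k2.1, k2.2, k3.1, k3.2, k4.1, k4.2, k5.1, k5.2]

private lemma MT_int57 {X t : ℝ} (_ : 0 < X) (ht : 1 ≤ t) (hXt : Real.exp (X / 2) ≤ t ^ 2) :
    IntegrableOn (fun x : ℝ => x * MT x t - x * Real.log t) (Ioc 0 X) := by
  have hc : ContinuousOn (fun x : ℝ => x * MT x t - x * Real.log t) (Ioc 0 X) := by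
    have h1 : ContinuousOn (fun x : ℝ => 2 * (x * (JJ x ((3 / 2 - 2 : ℝ) + t * Complex.I)).re) +
        2 * (x * (JJ x ((3 / 2 - 1 : ℝ) + t * Complex.I)).re) -
        x * (Real.log Real.pi + Real.eulerMascheroniConstant) + (RRx57 t x + x * ∑' n : ℕ, Dn n t)) (Ioc 0 X) := by
      have a1 := xJJ_cont57 (X := X) (z_ne (a := 3/2 - 2) (by norm_num) t)
      have a2 := xJJ_cont57 (X := X) (z_ne (a := 3/2 - 1) (by norm_num) t)
      exact (((continuousOn_const.mul a1).add (continuousOn_const.mul a2)).sub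
        (continuousOn_id.mul continuousOn_const)).add ((RR_cont57 ht).add (continuousOn_id.mul continuousOn_const))
    have h2 : ContinuousOn (fun x : ℝ => x * MT x t) (Ioc 0 X) := h1.congr fun x hx => MT_eq57 hx.1 ht
    exact h2.sub (continuousOn_id.mul continuousOn_const)
  refine Integrable.of_bound (hc.aestronglyMeasurable measurableSet_Ioc) (C57 * (1 + X)) ?_
  · rw [ae_restrict_iff' measurableSet_Ioc]
    refine ae_of_all _ fun x hx => ?_
    rw [Real.norm_eq_abs]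
    have h3 : Real.exp (x / 2) ≤ t ^ 2 := (Real.exp_le_exp.mpr (by linarith [hx.2])).trans hXt
    refine (MT_diff57 hx.1 ht h3).trans ?_
    have := C_pos57
    have := hx.2
    gcongr

private lemma MM_diff57 {X t : ℝ} (hX : 1 ≤ X) (ht : 1 ≤ t) (hXt : Real.exp (X / 2) ≤ t ^ 2) :
    |MM X t - Real.log t / X| ≤ 4 * C57 / X := by
  have hX0 : 0 < X := by linarith
  have hC := C_pos57
  have hI := MT_int57 hX0 ht hXt
  have hI' : IntervalIntegrable (fun x : ℝ => x * MT x t - x * Real.log t) volume 0 X := by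
    rw [intervalIntegrable_iff_integrableOn_Ioc_of_le hX0.le]; exact hI
  have hL : IntervalIntegrable (fun x : ℝ => x * Real.log t) volume 0 X := by
    apply Continuous.intervalIntegrable
    fun_prop
  have h1 : ∫ x in (0:ℝ)..X, x * MT x t = (∫ x in (0:ℝ)..X, (x * MT x t - x * Real.log t)) + X ^ 2 / 2 * Real.log t := by
    have e := intervalIntegral.integral_add hI' hL
    have e2 : ∫ x in (0:ℝ)..X, x * Real.log t = X ^ 2 / 2 * Real.log t := by
      rw [intervalIntegral.integral_mul_const, integral_id]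
      ring
    rw [e2] at e
    rw [← e]
    congr 1
    funext x
    ring
  have h2 : |∫ x in (0:ℝ)..X, (x * MT x t - x * Real.log t)| ≤ C57 * (1 + X) * X := by
    have h3 := intervalIntegral.norm_integral_le_of_norm_le_const (a := 0) (b := X) (C := C57 * (1 + X))
      (f := fun x : ℝ => x * MT x t - x * Real.log t) (fun x hx => by
        rw [uIoc_of_le hX0.le] at hx
        rw [Real.norm_eq_abs]
        have h3 : Real.exp (x / 2) ≤ t ^ 2 := (Real.exp_le_exp.mpr (by linarith [hx.2])).trans hXt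
        refine (MT_diff57 hx.1 ht h3).trans ?_
        have := hx.2
        gcongr)
    rw [Real.norm_eq_abs, sub_zero, abs_of_pos hX0] at h3
    exact h3
  unfold MM
  rw [h1]
  set Q := ∫ x in (0:ℝ)..X, (x * MT x t - x * Real.log t)
  have e3 : 2 / X ^ 3 * (Q + X ^ 2 / 2 * Real.log t) - Real.log t / X = 2 / X ^ 3 * Q := by
    field_simp
    ring
  rw [e3, abs_mul, abs_of_pos (by positivity : 0 < 2 / X ^ 3)]
  calc 2 / X ^ 3 * |Q| ≤ 2 / X ^ 3 * (C57 * (1 + X) * X) := by gcongr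
    _ = 2 * C57 * (1 + X) / X ^ 2 := by field_simp
    _ ≤ 2 * C57 * (X + X) / X ^ 2 := by gcongr
    _ = 4 * C57 / X := by field_simp; ring


/-! ### evenness -/

private lemma JJ_neg57 {x : ℝ} (hx : 0 < x) {a : ℝ} (ha : a ≠ 0) (t : ℝ) :
    (JJ x ((a : ℂ) + ((-t : ℝ) : ℂ) * Complex.I)).re = (JJ x ((a : ℂ) + (t : ℂ) * Complex.I)).re := by
  have hz : (a : ℂ) + (t : ℂ) * Complex.I ≠ 0 := z_ne ha t
  have hz2 : (a : ℂ) + ((-t : ℝ) : ℂ) * Complex.I ≠ 0 := z_ne ha (-t)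
  have e : (a : ℂ) + ((-t : ℝ) : ℂ) * Complex.I = (starRingEnd ℂ) ((a : ℂ) + (t : ℂ) * Complex.I) := by
    simp
  rw [JJ_eq hx hz2, JJ_eq hx hz, e]
  set z := (a : ℂ) + (t : ℂ) * Complex.I with hzd
  have e2 : -(1 / (starRingEnd ℂ) z) + (Complex.exp ((starRingEnd ℂ) z * x) - 1) / (x * (starRingEnd ℂ) z ^ 2) =
      (starRingEnd ℂ) (-(1 / z) + (Complex.exp (z * x) - 1) / (x * z ^ 2)) := by
    simp only [map_add, map_neg, map_div₀, map_sub, map_mul, map_pow, map_one, ← Complex.exp_conj, Complex.conj_ofReal]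
  rw [e2, Complex.conj_re]

lemma MT_neg {x : ℝ} (hx : 0 < x) (t : ℝ) : MT x (-t) = MT x t := by
  unfold MT
  have h : ∀ n : ℕ, (3 / 2 - 2 * ((n:ℝ) + 1) : ℝ) ≠ 0 := by
    intro n h0
    have hn : (0:ℝ) ≤ n := Nat.cast_nonneg n
    have : ((4 * (n + 1) : ℕ) : ℝ) = ((3 : ℕ) : ℝ) := by push_cast; linarith
    have h2 : 4 * (n + 1) = 3 := by exact_mod_cast this
    omega
  rw [JJ_neg57 hx (a := 3 / 2 - 2) (by norm_num) t, JJ_neg57 hx (a := 3 / 2 - 1) (by norm_num) t]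
  congr 1
  refine tsum_congr fun n => ?_
  rw [JJ_neg57 hx (h n) t]

lemma MM_neg {X : ℝ} (hX : 0 < X) (t : ℝ) : MM X (-t) = MM X t := by
  unfold MM
  congr 1
  rw [intervalIntegral.integral_of_le hX.le, intervalIntegral.integral_of_le hX.le]
  refine setIntegral_congr_fun measurableSet_Ioc fun x hx => ?_
  show x * MT x (-t) = x * MT x t
  rw [MT_neg hx.1]

/-- main term, main range -/
theorem MM_main : ∃ C : ℝ, 0 < C ∧ ∀ X t : ℝ, 1 ≤ X → 1 ≤ |t| → Real.exp (X / 2) ≤ t ^ 2 →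
    |MM X t - Real.log |t| / X| ≤ C / X := by
  refine ⟨4 * C57, by have := C_pos57; linarith, ?_⟩
  intro X t hX ht hXt
  rcases le_total 0 t with h | h
  · rw [abs_of_nonneg h] at ht ⊢
    exact MM_diff57 hX ht hXt
  · rw [abs_of_nonpos h] at ht ⊢
    rw [← MM_neg (by linarith) t]
    exact MM_diff57 hX ht (by rw [neg_sq]; exact hXt)

/-! ### crude bound -/

private lemma za_nonneg57 {X : ℝ} (hX : 0 < X) (ρ : ℂ) : 0 ≤ za X ρ := by unfold za; positivity

private lemma za_le57 {X : ℝ} (hX : 0 < X) (ρ : ZS) : za X ρ ≤ X / 2 := by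
  have h := zs_re ρ
  have h1 : |(ρ:ℂ).re - 1 / 2| ≤ 1 / 2 := abs_le.mpr ⟨by linarith, by linarith⟩
  unfold za
  nlinarith

lemma qk_fz {X : ℝ} (hX : 0 < X) (t : ℝ) (ρ : ZS) :
    |mx ρ * qk (za X ρ) (zb X t ρ)| ≤ (63 * Real.cosh (X / 2) * (4 + 1 / X ^ 2)) * fz ρ t := by
  have h := zs_re ρ
  have hm : 0 ≤ mx (ρ : ℂ) := mx_nonneg _
  have hc : Real.cosh (za X ρ) ≤ Real.cosh (X / 2) := by
    rw [Real.cosh_le_cosh, abs_of_nonneg (za_nonneg57 hX _), abs_of_pos (by positivity)]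
    exact za_le57 hX ρ
  have hb := hk_bound (za X ρ) (zb X t ρ)
  have hq : |qk (za X ρ) (zb X t ρ)| ≤ hk (za X ρ) (zb X t ρ) := by
    unfold hk
    have := abs_nonneg (qk 0 (zb X t ρ))
    have := abs_nonneg (qk (za X ρ) (zb X t ρ))
    linarith
  set w : ℝ := t - (ρ:ℂ).im with hw
  have hzb : zb X t ρ = X * w := rfl
  rw [hzb] at hb hq ⊢
  have hC : (0:ℝ) < Real.cosh (X / 2) := Real.cosh_pos _
  have h1 : 1 / (1 + (X * w) ^ 2) ≤ (4 + 1 / X ^ 2) * (1 / (4 + w ^ 2)) := by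
    rw [mul_one_div, div_le_div_iff₀ (by positivity) (by positivity)]
    have : (4 + 1 / X ^ 2) * (1 + (X * w) ^ 2) = 4 + w ^ 2 + (4 * X ^ 2 * w ^ 2 + 1 / X ^ 2) := by
      field_simp
      ring
    rw [this]
    have : 0 ≤ 4 * X ^ 2 * w ^ 2 + 1 / X ^ 2 := by positivity
    linarith
  have h2 : 1 / (4 + w ^ 2) ≤ (2 - (ρ:ℂ).re) / ((2 - (ρ:ℂ).re) ^ 2 + w ^ 2) := by
    have h3 : 0 < (2 - (ρ:ℂ).re) := by linarith
    rw [div_le_div_iff₀ (by positivity) (by positivity)]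
    nlinarith [sq_nonneg w, mul_pos h3 h3, mul_nonneg (sq_nonneg w) (by linarith : (0:ℝ) ≤ 1 - (ρ:ℂ).re)]
  have h4 : |qk (za X ρ) (X * w)| ≤
      (63 * Real.cosh (X / 2) * (4 + 1 / X ^ 2)) * ((2 - (ρ:ℂ).re) / ((2 - (ρ:ℂ).re) ^ 2 + w ^ 2)) := by
    calc |qk (za X ρ) (X * w)| ≤ 63 * Real.cosh (za X ρ) * (1 / (1 + (X * w) ^ 2)) := by
          rw [mul_one_div]; exact hq.trans hb
      _ ≤ 63 * Real.cosh (X / 2) * ((4 + 1 / X ^ 2) * (1 / (4 + w ^ 2))) := by gcongr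
      _ ≤ 63 * Real.cosh (X / 2) * ((4 + 1 / X ^ 2) * ((2 - (ρ:ℂ).re) / ((2 - (ρ:ℂ).re) ^ 2 + w ^ 2))) := by gcongr
      _ = _ := by ring
  rw [abs_mul, abs_of_nonneg hm]
  calc mx ρ * |qk (za X ρ) (X * w)| ≤ mx ρ * ((63 * Real.cosh (X / 2) * (4 + 1 / X ^ 2)) *
        ((2 - (ρ:ℂ).re) / ((2 - (ρ:ℂ).re) ^ 2 + w ^ 2))) := by gcongr
    _ = _ := by unfold fz; rw [hw]; ring

lemma SS_crude {X : ℝ} (hX : 1 ≤ X) (t : ℝ) : |SS X t| ≤ 4 * Real.exp X := by
  have hX0 : 0 < X := by linarith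
  unfold SS
  rw [abs_mul, abs_of_pos (by positivity : 0 < 2 / X)]
  have h1 : |∑ n ∈ Finset.range (⌊Real.exp X⌋₊ + 1),
      ArithmeticFunction.vonMangoldt n / Real.sqrt n * (1 - Real.log n / X) ^ 2 * Real.cos (t * Real.log n)| ≤
      ∑ n ∈ Finset.range (⌊Real.exp X⌋₊ + 1), X := by
    refine (Finset.abs_sum_le_sum_abs _ _).trans (Finset.sum_le_sum fun n hn => ?_)
    rw [Finset.mem_range] at hn
    rcases Nat.eq_zero_or_pos n with rfl | hn0
    · simp
      exact hX0.le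
    have hn1 : (1:ℝ) ≤ n := by exact_mod_cast hn0
    have hnX : (n:ℝ) ≤ Real.exp X := (Nat.le_floor_iff (Real.exp_pos X).le).mp (by omega)
    have hl0 : 0 ≤ Real.log n := Real.log_nonneg hn1
    have hlX : Real.log n ≤ X := by
      rw [Real.log_le_iff_le_exp (by linarith)]; exact hnX
    have hL : ArithmeticFunction.vonMangoldt n ≤ Real.log n := ArithmeticFunction.vonMangoldt_le_log
    have hL0 : 0 ≤ ArithmeticFunction.vonMangoldt n := ArithmeticFunction.vonMangoldt_nonneg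
    have hs : 1 ≤ Real.sqrt n := by
      rw [Real.one_le_sqrt]; exact hn1
    have e1 : (1 - Real.log n / X) ^ 2 ≤ 1 := by
      have a1 : 0 ≤ Real.log n / X := by positivity
      have a2 : Real.log n / X ≤ 1 := by rw [div_le_one hX0]; exact hlX
      nlinarith
    rw [abs_mul, abs_mul, abs_of_nonneg (div_nonneg hL0 (by linarith)), abs_of_nonneg (sq_nonneg _)]
    calc ArithmeticFunction.vonMangoldt n / Real.sqrt n * (1 - Real.log n / X) ^ 2 * |Real.cos (t * Real.log n)|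
        ≤ X / 1 * 1 * 1 := by
          gcongr
          · linarith
          · exact Real.abs_cos_le_one _
      _ = X := by ring
  rw [Finset.sum_const, Finset.card_range, nsmul_eq_mul] at h1
  have h2 : ((⌊Real.exp X⌋₊ + 1 : ℕ) : ℝ) ≤ 2 * Real.exp X := by
    push_cast
    have := Nat.floor_le (Real.exp_pos X).le
    have h3 : 1 ≤ Real.exp X := Real.one_le_exp hX0.le
    linarith
  calc 2 / X * |_| ≤ 2 / X * (((⌊Real.exp X⌋₊ + 1 : ℕ) : ℝ) * X) := by gcongr
    _ ≤ 2 / X * (2 * Real.exp X * X) := by gcongr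
    _ = 4 * Real.exp X := by field_simp; ring

lemma MM_crude57 : ∃ C : ℝ, 0 < C ∧ ∀ X t : ℝ, 1 ≤ X → |MM X t| ≤ C * Real.exp X * Real.sqrt (1 + |t|) := by
  refine ⟨4 + 63 * 5 * |CA|, by positivity, ?_⟩
  intro X t hX
  have hX0 : 0 < X := by linarith
  have h1 := explicit_q hX0 t
  have h2 := (fz_hasSum t).mul_left (63 * Real.cosh (X / 2) * (4 + 1 / X ^ 2))
  have h3 : |MM X t - SS X t| ≤ 63 * Real.cosh (X / 2) * (4 + 1 / X ^ 2) * Afun t := by
    rw [← h1.tsum_eq, ← Real.norm_eq_abs]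
    exact tsum_of_norm_bounded h2 fun ρ => by rw [Real.norm_eq_abs]; exact qk_fz hX0 t ρ
  have h4 := SS_crude hX t
  have h5 : Afun t ≤ |CA| * Real.sqrt (1 + |t|) := by
    have := Afun_bound t
    unfold wg at this
    calc Afun t ≤ |Afun t| := le_abs_self _
      _ ≤ CA * Real.sqrt (1 + |t|) := this
      _ ≤ _ := by gcongr; exact le_abs_self _
  have h6 : Real.cosh (X / 2) ≤ Real.exp X := by
    rw [Real.cosh_eq]
    have a1 : Real.exp (X / 2) ≤ Real.exp X := Real.exp_le_exp.mpr (by linarith)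
    have a2 : Real.exp (-(X / 2)) ≤ Real.exp X := Real.exp_le_exp.mpr (by linarith)
    linarith
  have h7 : 4 + 1 / X ^ 2 ≤ 5 := by
    have : 1 / X ^ 2 ≤ 1 := by
      rw [div_le_one (by positivity)]
      nlinarith
    linarith
  have h8 : 1 ≤ Real.sqrt (1 + |t|) := by
    rw [Real.one_le_sqrt]
    have := abs_nonneg t
    linarith
  have hA := Afun_nonneg t
  have h9 : |MM X t| ≤ |MM X t - SS X t| + |SS X t| := by
    calc |MM X t| = |(MM X t - SS X t) + SS X t| := by ring_nf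
      _ ≤ _ := abs_add_le _ _
  calc |MM X t| ≤ 63 * Real.cosh (X / 2) * (4 + 1 / X ^ 2) * Afun t + 4 * Real.exp X := by linarith
    _ ≤ 63 * Real.exp X * 5 * (|CA| * Real.sqrt (1 + |t|)) + 4 * Real.exp X * Real.sqrt (1 + |t|) := by
        have e1 : 63 * Real.cosh (X / 2) * (4 + 1 / X ^ 2) * Afun t ≤ 63 * Real.exp X * 5 * (|CA| * Real.sqrt (1 + |t|)) := by
          gcongr
        have e2 : 4 * Real.exp X ≤ 4 * Real.exp X * Real.sqrt (1 + |t|) := by
          have : 0 < Real.exp X := Real.exp_pos X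
          nlinarith
        linarith
    _ = _ := by ring

/-- bound for all `t` -/
theorem MM_all : ∃ C : ℝ, 0 < C ∧ ∀ X t : ℝ, 1 ≤ X → |MM X t| ≤ C * Real.exp (2 * X) * (1 + Real.log (2 + |t|)) := by
  obtain ⟨C1, hC1, h1⟩ := MM_main
  obtain ⟨C2, hC2, h2⟩ := MM_crude57
  refine ⟨1 + C1 + 2 * C2, by positivity, ?_⟩
  intro X t hX
  have hX0 : 0 < X := by linarith
  have hat := abs_nonneg t
  have hlog : 0 ≤ Real.log (2 + |t|) := Real.log_nonneg (by linarith)
  have he : 1 ≤ Real.exp (2 * X) := Real.one_le_exp (by linarith)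
  by_cases h : 1 ≤ |t| ∧ Real.exp (X / 2) ≤ t ^ 2
  · have h3 := h1 X t hX h.1 h.2
    have h4 : |Real.log |t| / X| ≤ Real.log (2 + |t|) := by
      rw [abs_div, abs_of_pos hX0, div_le_iff₀ hX0, abs_of_nonneg (Real.log_nonneg h.1)]
      have : Real.log |t| ≤ Real.log (2 + |t|) := Real.log_le_log (by linarith) (by linarith)
      nlinarith
    have h5 : C1 / X ≤ C1 := div_le_self hC1.le hX
    have h6 : |MM X t| ≤ |MM X t - Real.log |t| / X| + |Real.log |t| / X| := by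
      calc |MM X t| = |(MM X t - Real.log |t| / X) + Real.log |t| / X| := by ring_nf
        _ ≤ _ := abs_add_le _ _
    calc |MM X t| ≤ C1 + Real.log (2 + |t|) := by linarith
      _ ≤ (1 + C1 + 2 * C2) * 1 * (1 + Real.log (2 + |t|)) := by nlinarith
      _ ≤ _ := by gcongr
  · have h3 := h2 X t hX
    have h4 : Real.sqrt (1 + |t|) ≤ 2 * Real.exp X := by
      have hte : |t| ≤ Real.exp X := by
        rw [not_and_or] at h
        have hx1 : 1 ≤ Real.exp X := Real.one_le_exp hX0.le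
        rcases h with h | h
        · linarith
        · rw [not_le] at h
          by_contra h5
          rw [not_le] at h5
          have : Real.exp X ^ 2 ≤ t ^ 2 := by
            rw [← sq_abs t]
            gcongr
          have h6 : Real.exp (X / 2) ≤ Real.exp X := Real.exp_le_exp.mpr (by linarith)
          nlinarith
      have hx1 : 1 ≤ Real.exp X := Real.one_le_exp hX0.le
      rw [Real.sqrt_le_left (by positivity)]
      nlinarith
    calc |MM X t| ≤ C2 * Real.exp X * (2 * Real.exp X) := h3.trans (by gcongr)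
      _ = (2 * C2) * Real.exp (2 * X) * 1 := by
          rw [show 2 * X = X + X by ring, Real.exp_add]; ring
      _ ≤ (1 + C1 + 2 * C2) * Real.exp (2 * X) * (1 + Real.log (2 + |t|)) := by
          gcongr
          · linarith
          · linarith

/-! ### measurability -/

lemma SS_meas (X : ℝ) : Measurable (SS X) := by
  unfold SS
  fun_prop

theorem MM_meas {X : ℝ} (hX : 0 < X) : Measurable (MM X) := by
  have h1 : Measurable (fun t => MM X t - SS X t) := by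
    have hlim : Tendsto (fun (s : Finset ZS) (t : ℝ) => ∑ ρ ∈ s, mx ρ * qk (za X ρ) (zb X t ρ)) atTop
        (𝓝 (fun t => MM X t - SS X t)) := by
      rw [tendsto_pi_nhds]
      intro t
      exact explicit_q hX t
    refine measurable_of_tendsto_metrizable' atTop (fun s => ?_) hlim
    refine Finset.measurable_fun_sum _ fun ρ _ => ?_
    refine Measurable.const_mul ?_ _
    have hq : Continuous (qk (za X ρ)) := qk_cont _
    refine hq.measurable.comp ?_
    unfold zb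
    fun_prop
  have h2 := h1.add (SS_meas X)
  have e : MM X = fun t => (MM X t - SS X t) + SS X t := by
    funext t
    ring
  rw [e]
  exact h2

end Pool.Agent.Helper57.UG
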